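import Pool.Agent.Lib.MP_7d5495_lc.Final

/-!
# The stabbing number of rectilinear polygons without holes is NP-hard

The definitions of simple rectilinear polygons, of rectangular partitions, of stabbing segments
and of the stabbing number are in `Pool.Agent.Lib.MP_7d5495_lc.Defs`.
-/

namespace Pool.Agent.Results.MP_7d5495_lc.NPHard

open Pool.Agent.Lib.MP_7d5495_lc

/-- **To decide, for a simple rectilinear polygon `P` without holes and an integer `k`, whether
`stab P ≤ k` is NP-hard, even in the strong sense**: for every problem `L` in NP there is a
function `f`, computable in polynomial time, that maps every word `x` to the cyclic list of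
the vertices of a simple rectilinear polygon, with natural coordinates that are polynomially
bounded in the length of `x`, and to a polynomially bounded number `k`, such that `x` belongs to
`L` if and only if the stabbing number of the polygon is at most `k`. -/
theorem result : ∀ L ∈ N68a2faeb.NP,
    ∃ (f : List Bool → List (ℚ × ℚ) × ℕ) (p : Polynomial ℕ), N68a2faeb.IsPolyTime f ∧
      ∀ x, IsSimpleRectilinear (f x).1 ∧
        (∀ v ∈ (f x).1, ∃ a b : ℕ, v = ((a : ℚ), (b : ℚ)) ∧ a ≤ p.eval x.length ∧
          b ≤ p.eval x.length) ∧
        (f x).2 ≤ p.eval x.length ∧
        (L x = true ↔ stab (region (f x).1) ≤ (f x).2) :=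
  minStab_stronglyNPHard

end Pool.Agent.Results.MP_7d5495_lc.NPHard
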